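import Pool.Agent.BallBlock.Main

/-!
`A*`, the infimum of the areas of the surfaces that meet every line meeting the unit ball of
three-space, is smaller than the area `2π + π²/2` of the Faber-Mycielski surface.
The definitions are in `Pool/Agent/BallBlock/Defs.lean`.
-/

theorem Pool.Agent.Results.MP_0f4db6_gt.BallBlocking.result :
    BallBlock.AStar < ENNReal.ofReal (2 * Real.pi + Real.pi ^ 2 / 2) :=
  BallBlock.astar_lt
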